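import Mathlib

/-!
# The coefficients `c_n^{(r,s)}` are not all integral for `r > s > 1`
-/

set_option autoImplicit false

namespace Pool.Agent.Results.MP_90f83a_nt.AlwaysNonintegral

open Finset

/-- `C(n,k) C(n+k,k)` -/
def w (n k : ℕ) : ℕ := n.choose k * (n + k).choose k

lemma w_zero (n : ℕ) : w n 0 = 1 := by simp [w]

lemma w_one (n : ℕ) : w n 1 = n * (n + 1) := by simp [w]

/-- for `n = p - 2` all `w n k` with `2 ≤ k ≤ n` are divisible by `p` -/
lemma dvd_w {p : ℕ} (hp : p.Prime) {k : ℕ} (h2 : 2 ≤ k) (hk : k ≤ p - 2) : p ∣ w (p - 2) k := by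
  have hp2 := hp.two_le
  apply dvd_mul_of_dvd_right
  have h1 : (p - 2 + k).choose k * k.factorial * (p - 2 + k - k).factorial = (p - 2 + k).factorial :=
    Nat.choose_mul_factorial_mul_factorial (by omega)
  have h3 : p ∣ (p - 2 + k).factorial := (hp.dvd_factorial).mpr (by omega)
  rw [← h1, show p - 2 + k - k = p - 2 by omega] at h3
  rcases (hp.dvd_mul).mp h3 with h4 | h4
  · rcases (hp.dvd_mul).mp h4 with h5 | h5
    · exact h5
    · exact absurd ((hp.dvd_factorial).mp h5) (by omega)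
  · exact absurd ((hp.dvd_factorial).mp h4) (by omega)

/-- the arithmetic core -/
lemma core {p : ℕ} (hp : p.Prime) (h5 : 5 ≤ p) {r s : ℕ} (hs : 1 < s) (hr : s < r) (c : ℕ → ℤ)
    (h : ∀ n, ∑ k ∈ range (n + 1), (w n k : ℤ) ^ r = ∑ k ∈ range (n + 1), (w n k : ℤ) ^ s * c k) :
    p ∣ r - s := by
  have e0 := h 0
  have e1 := h 1
  have en := h (p - 2)
  obtain ⟨m, rfl⟩ : ∃ m, p = m + 5 := ⟨p - 5, by omega⟩
  have c0 : c 0 = 1 := by simpa [w] using e0.symm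
  have c1 : (2 : ℤ) ^ r = 2 ^ s * c 1 := by
    rw [sum_range_succ, sum_range_succ, sum_range_zero, sum_range_succ, sum_range_succ,
      sum_range_zero, w_zero, w_one, c0] at e1
    push_cast at e1
    linear_combination e1
  rw [show m + 5 - 2 + 1 = m + 2 + 2 by omega, sum_range_succ', sum_range_succ',
    sum_range_succ' (fun k => (w (m + 5 - 2) k : ℤ) ^ s * c k),
    sum_range_succ' (fun k => (w (m + 5 - 2) (k + 1) : ℤ) ^ s * c (k + 1))] at en
  have hd : ∀ k ∈ range (m + 2), ((m + 5 : ℕ) : ℤ) ^ 2 ∣ (w (m + 5 - 2) (k + 1 + 1) : ℤ) ^ s := by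
    intro k hk
    have hk' := mem_range.mp hk
    have h1 := dvd_w hp (k := k + 1 + 1) (by omega) (by omega)
    have h2 : ((m + 5 : ℕ) : ℤ) ∣ (w (m + 5 - 2) (k + 1 + 1) : ℤ) := by exact_mod_cast h1
    exact (pow_dvd_pow_of_dvd h2 2).trans (pow_dvd_pow _ (by omega))
  have d1 : ((m + 5 : ℕ) : ℤ) ^ 2 ∣ ∑ k ∈ range (m + 2), (w (m + 5 - 2) (k + 1 + 1) : ℤ) ^ r :=
    dvd_sum fun k hk => (hd k hk).trans (pow_dvd_pow _ hr.le)
  have d2 : ((m + 5 : ℕ) : ℤ) ^ 2 ∣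
      ∑ k ∈ range (m + 2), (w (m + 5 - 2) (k + 1 + 1) : ℤ) ^ s * c (k + 1 + 1) :=
    dvd_sum fun k hk => (hd k hk).mul_right _
  have hw1 : (w (m + 5 - 2) (0 + 1) : ℤ) = ((m + 5 : ℕ) : ℤ) ^ 2 - 3 * ((m + 5 : ℕ) : ℤ) + 2 := by
    rw [zero_add, w_one, show m + 5 - 2 = m + 3 by omega]
    push_cast; ring
  rw [hw1, w_zero, c0] at en
  obtain ⟨a, ha⟩ := d1
  obtain ⟨b, hb⟩ := d2
  rw [ha, hb] at en
  generalize hP : ((m + 5 : ℕ) : ℤ) = P at *
  -- mod P^2
  have hpow : ∀ e : ℕ, P ^ 2 ∣ (P ^ 2 - 3 * P + 2) ^ e - (2 ^ e - 3 * P * e * 2 ^ (e - 1)) := by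
    intro e
    induction e with
    | zero => simp
    | succ e ih =>
      obtain ⟨t, ht⟩ := ih
      rcases Nat.eq_zero_or_pos e with h0 | h0
      · subst h0; exact ⟨1, by push_cast; ring⟩
      obtain ⟨f, rfl⟩ : ∃ f, e = f + 1 := ⟨e - 1, by omega⟩
      simp only [Nat.add_sub_cancel] at ht ⊢
      have h3 : (P ^ 2 - 3 * P + 2) ^ (f + 1) =
          P ^ 2 * t + (2 ^ (f + 1) - 3 * P * ((f + 1 : ℕ) : ℤ) * 2 ^ f) := by
        linear_combination ht
      rw [pow_succ (P ^ 2 - 3 * P + 2) (f + 1), h3]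
      refine ⟨t * (P ^ 2 - 3 * P + 2) + 2 ^ (f + 1) + (3 - P) * 3 * ((f + 1 : ℕ) : ℤ) * 2 ^ f, ?_⟩
      push_cast
      ring
  obtain ⟨x, hx⟩ := hpow r
  obtain ⟨y, hy⟩ := hpow s
  have key : P ^ 2 ∣ P * (3 * ((r : ℤ) - s) * 2 ^ (r - 1)) := by
    have e2 : (2 : ℤ) ^ (r - 1) * 2 = 2 ^ r := by
      rw [← pow_succ]; congr 1; omega
    have e3 : (2 : ℤ) ^ (s - 1) * 2 = 2 ^ s := by
      rw [← pow_succ]; congr 1; omega
    have e4 : (2 : ℤ) ^ (r - 1) = 2 ^ (s - 1) * c 1 := by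
      have : (2 : ℤ) ^ (r - 1) * 2 = 2 ^ (s - 1) * c 1 * 2 := by
        rw [e2, c1, ← e3]; ring
      linarith
    refine ⟨a - b + x - y * c 1, ?_⟩
    have e5 : (P ^ 2 - 3 * P + 2) ^ r = P ^ 2 * x + (2 ^ r - 3 * P * r * 2 ^ (r - 1)) := by
      linear_combination hx
    have e6 : (P ^ 2 - 3 * P + 2) ^ s = P ^ 2 * y + (2 ^ s - 3 * P * s * 2 ^ (s - 1)) := by
      linear_combination hy
    rw [e5, e6] at en
    simp only [zero_add] at en
    push_cast at en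
    linear_combination -en + c1 - (3 * P * s) * e4
  have hP0 : P ≠ 0 := by rw [← hP]; positivity
  have key2 : P ∣ 3 * ((r : ℤ) - s) * 2 ^ (r - 1) := by
    obtain ⟨z, hz⟩ := key
    refine ⟨z, ?_⟩
    apply mul_left_cancel₀ hP0
    linear_combination hz
  have hPp : Prime P := by rw [← hP]; exact Nat.prime_iff_prime_int.mp hp
  have h3 : ¬ P ∣ 3 := by
    intro h
    rw [← hP] at h
    have : (m + 5) ∣ 3 := by exact_mod_cast h
    exact absurd (Nat.le_of_dvd (by norm_num) this) (by omega)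
  have h2 : ¬ P ∣ 2 ^ (r - 1) := by
    intro h
    have h' := hPp.dvd_of_dvd_pow h
    rw [← hP] at h'
    have : (m + 5) ∣ 2 := by exact_mod_cast h'
    exact absurd (Nat.le_of_dvd (by norm_num) this) (by omega)
  have h4 : P ∣ (r : ℤ) - s := by
    rcases hPp.dvd_or_dvd key2 with h | h
    · rcases hPp.dvd_or_dvd h with h' | h'
      · exact absurd h' h3
      · exact h'
    · exact absurd h h2
  rw [← hP] at h4
  have h6 : ((r - s : ℕ) : ℤ) = (r : ℤ) - s := by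
    rw [Nat.cast_sub hr.le]
  rw [← h6] at h4
  exact_mod_cast h4

/-- For all integers `r > s > 1`, if rational numbers `c_0, c_1, ...` satisfy
`∑_{k ≤ n} C(n,k)^r C(n+k,k)^r = ∑_{k ≤ n} C(n,k)^s C(n+k,k)^s c_k` for every `n ≥ 0`, then some
`c_n` with `n ≥ 1` is not an integer. -/
theorem result (r s : ℕ) (hs : 1 < s) (hr : s < r) (c : ℕ → ℚ)
    (h : ∀ n : ℕ, ∑ k ∈ range (n + 1), (n.choose k : ℚ) ^ r * ((n + k).choose k : ℚ) ^ r =
      ∑ k ∈ range (n + 1), (n.choose k : ℚ) ^ s * ((n + k).choose k : ℚ) ^ s * c k) :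
    ∃ n : ℕ, 1 ≤ n ∧ ∀ z : ℤ, c n ≠ z := by
  by_contra hcon
  push Not at hcon
  have h0 : c 0 = 1 := by
    have := h 0
    simpa using this.symm
  have hall : ∀ n, ∃ z : ℤ, c n = z := by
    intro n
    rcases Nat.eq_zero_or_pos n with hn | hn
    · exact ⟨1, by rw [hn, h0]; norm_num⟩
    · exact hcon n hn
  choose d hd using hall
  obtain ⟨p, hpge, hp⟩ := Nat.exists_infinite_primes (r + 5)
  have hdvd := core hp (by omega) hs hr d (by
    intro n
    have h1 := h n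
    have h2 : ∑ k ∈ range (n + 1), ((w n k : ℤ) : ℚ) ^ r =
        ∑ k ∈ range (n + 1), ((w n k : ℤ) : ℚ) ^ s * (d k : ℚ) := by
      have e1 : ∀ k, ((w n k : ℤ) : ℚ) = (n.choose k : ℚ) * ((n + k).choose k : ℚ) := by
        intro k; unfold w; push_cast; ring
      simp only [e1, mul_pow, ← hd]
      exact h1
    exact_mod_cast h2)
  have := Nat.le_of_dvd (by omega) hdvd
  omega

end Pool.Agent.Results.MP_90f83a_nt.AlwaysNonintegral
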